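import Mathlib

/-!
# The grid
-/

namespace Pool.Agent.Draw

/-- The grid graph on `(N+1) × (N+1)` points. -/
def gridG (N : ℕ) : SimpleGraph (Fin (N + 1) × Fin (N + 1)) :=
  SimpleGraph.fromRel fun a b =>
    (a.1.val + 1 = b.1.val ∧ a.2 = b.2) ∨ (a.1 = b.1 ∧ a.2.val + 1 = b.2.val)

theorem gridG_adj {N : ℕ} {a b : Fin (N + 1) × Fin (N + 1)} : (gridG N).Adj a b ↔
    (a.1.val + 1 = b.1.val ∧ a.2 = b.2) ∨ (b.1.val + 1 = a.1.val ∧ a.2 = b.2) ∨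
      (a.1 = b.1 ∧ a.2.val + 1 = b.2.val) ∨ (a.1 = b.1 ∧ b.2.val + 1 = a.2.val) := by
  unfold gridG
  rw [SimpleGraph.fromRel_adj]
  constructor
  · rintro ⟨-, (h | h) | (h | h)⟩
    · exact Or.inl h
    · exact Or.inr (Or.inr (Or.inl h))
    · exact Or.inr (Or.inl ⟨h.1, h.2.symm⟩)
    · exact Or.inr (Or.inr (Or.inr ⟨h.1.symm, h.2⟩))
  · intro h
    constructor
    · rintro rfl
      omega
    · rcases h with h | h | h | h
      · exact Or.inl (Or.inl h)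
      · exact Or.inr (Or.inl ⟨h.1, h.2.symm⟩)
      · exact Or.inl (Or.inr h)
      · exact Or.inr (Or.inr ⟨h.1.symm, h.2⟩)

/-- The position of a grid point. -/
def P {N : ℕ} (δ : ℝ) (c : ℝ × ℝ) (g : Fin (N + 1) × Fin (N + 1)) : ℝ × ℝ :=
  (c.1 + δ * g.1.val, c.2 + δ * g.2.val)

end Pool.Agent.Draw
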