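import Mathlib
import Pool.Agent.Work.MP_392c8e_co_red.Pl
import Pool.Agent.Work.MP_392c8e_co_draw.Defs

/-!
# The square grid has an algebraic dual
-/

namespace Pool.Agent.Draw

open Finset Pool.Agent.Red

/-- Edges: horizontal and vertical. -/
abbrev GE (N : ℕ) : Type := (Fin N × Fin (N + 1)) ⊕ (Fin (N + 1) × Fin N)

/-- Faces: the cells and the outer face. -/
abbrev GF (N : ℕ) : Type := Option (Fin N × Fin N)

/-- Source. -/
def gs {N : ℕ} : GE N → Fin (N + 1) × Fin (N + 1)
  | Sum.inl p => (p.1.castSucc, p.2)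
  | Sum.inr p => (p.1, p.2.castSucc)

/-- Target. -/
def gt {N : ℕ} : GE N → Fin (N + 1) × Fin (N + 1)
  | Sum.inl p => (p.1.succ, p.2)
  | Sum.inr p => (p.1, p.2.succ)

/-- The cell with a given upper (or right) bound, if any. -/
def up {N : ℕ} (b : Fin (N + 1)) : Option (Fin N) :=
  if h : b.val < N then some ⟨b.val, h⟩ else none

/-- The cell with a given lower (or left) bound, if any. -/
def dn {N : ℕ} (b : Fin (N + 1)) : Option (Fin N) :=
  if h : b.val = 0 then none else some ⟨b.val - 1, by omega⟩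

theorem up_eq {N : ℕ} (b : Fin (N + 1)) (j : Fin N) : up b = some j ↔ b = j.castSucc := by
  unfold up
  split_ifs with h
  · rw [Option.some_inj, Fin.ext_iff, Fin.ext_iff]
    rfl
  · constructor
    · intro h1
      cases h1
    · rintro rfl
      exact absurd j.2 h

theorem dn_eq {N : ℕ} (b : Fin (N + 1)) (j : Fin N) : dn b = some j ↔ b = j.succ := by
  unfold dn
  split_ifs with h
  · constructor
    · intro h1
      cases h1
    · rintro rfl
      exact absurd h (Nat.succ_ne_zero _)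
  · rw [Option.some_inj, Fin.ext_iff, Fin.ext_iff]
    show b.val - 1 = j.val ↔ b.val = j.val + 1
    omega

/-- Left face. -/
def gl {N : ℕ} : GE N → GF N
  | Sum.inl p => (up p.2).map fun j => (p.1, j)
  | Sum.inr p => (dn p.1).map fun i => (i, p.2)

/-- Right face. -/
def gr {N : ℕ} : GE N → GF N
  | Sum.inl p => (dn p.2).map fun j => (p.1, j)
  | Sum.inr p => (up p.1).map fun i => (i, p.2)

theorem gl_inl {N : ℕ} (p : Fin N × Fin (N + 1)) (i j : Fin N) :
    gl (Sum.inl p) = some (i, j) ↔ (i, j.castSucc) = p := by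
  show (up p.2).map (fun j => (p.1, j)) = some (i, j) ↔ _
  rw [Option.map_eq_some_iff]
  constructor
  · rintro ⟨a, h1, h2⟩
    rw [up_eq] at h1
    cases h2
    rw [← h1]
  · rintro rfl
    exact ⟨j, (up_eq _ _).2 rfl, rfl⟩

theorem gr_inl {N : ℕ} (p : Fin N × Fin (N + 1)) (i j : Fin N) :
    gr (Sum.inl p) = some (i, j) ↔ (i, j.succ) = p := by
  show (dn p.2).map (fun j => (p.1, j)) = some (i, j) ↔ _
  rw [Option.map_eq_some_iff]
  constructor
  · rintro ⟨a, h1, h2⟩
    rw [dn_eq] at h1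
    cases h2
    rw [← h1]
  · rintro rfl
    exact ⟨j, (dn_eq _ _).2 rfl, rfl⟩

theorem gl_inr {N : ℕ} (p : Fin (N + 1) × Fin N) (i j : Fin N) :
    gl (Sum.inr p) = some (i, j) ↔ (i.succ, j) = p := by
  show (dn p.1).map (fun i => (i, p.2)) = some (i, j) ↔ _
  rw [Option.map_eq_some_iff]
  constructor
  · rintro ⟨a, h1, h2⟩
    rw [dn_eq] at h1
    cases h2
    rw [← h1]
  · rintro rfl
    exact ⟨i, (dn_eq _ _).2 rfl, rfl⟩

theorem gr_inr {N : ℕ} (p : Fin (N + 1) × Fin N) (i j : Fin N) :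
    gr (Sum.inr p) = some (i, j) ↔ (i.castSucc, j) = p := by
  show (up p.1).map (fun i => (i, p.2)) = some (i, j) ↔ _
  rw [Option.map_eq_some_iff]
  constructor
  · rintro ⟨a, h1, h2⟩
    rw [up_eq] at h1
    cases h2
    rw [← h1]
  · rintro rfl
    exact ⟨i, (up_eq _ _).2 rfl, rfl⟩

theorem orth_cell {N : ℕ} (v : Fin (N + 1) × Fin (N + 1)) (i j : Fin N) :
    ∑ e, inc (gs (N := N)) gt v e * inc gr gl (some (i, j)) e = 0 := by
  have h1 : ∀ p : Fin N × Fin (N + 1), inc (gs (N := N)) gt v (Sum.inl p) *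
      inc gr gl (some (i, j)) (Sum.inl p) =
      (if (i, j.castSucc) = p then inc (gs (N := N)) gt v (Sum.inl p) else 0) -
        (if (i, j.succ) = p then inc (gs (N := N)) gt v (Sum.inl p) else 0) := by
    intro p
    have h2 : inc gr gl (some (i, j)) (Sum.inl p) = (if (i, j.castSucc) = p then (1 : ℚ) else 0) -
        (if (i, j.succ) = p then (1 : ℚ) else 0) := by
      unfold inc
      simp only [gl_inl, gr_inl]
    rw [h2, mul_sub, mul_ite, mul_ite, mul_one, mul_zero]
  have h3 : ∀ p : Fin (N + 1) × Fin N, inc (gs (N := N)) gt v (Sum.inr p) *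
      inc gr gl (some (i, j)) (Sum.inr p) =
      (if (i.succ, j) = p then inc (gs (N := N)) gt v (Sum.inr p) else 0) -
        (if (i.castSucc, j) = p then inc (gs (N := N)) gt v (Sum.inr p) else 0) := by
    intro p
    have h2 : inc gr gl (some (i, j)) (Sum.inr p) = (if (i.succ, j) = p then (1 : ℚ) else 0) -
        (if (i.castSucc, j) = p then (1 : ℚ) else 0) := by
      unfold inc
      simp only [gl_inr, gr_inr]
    rw [h2, mul_sub, mul_ite, mul_ite, mul_one, mul_zero]
  rw [Fintype.sum_sum_type]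
  simp only [h1, h3, sum_sub_distrib, sum_ite_eq, mem_univ, if_true]
  show ((if (i.succ, j.castSucc) = v then (1 : ℚ) else 0) -
      (if (i.castSucc, j.castSucc) = v then (1 : ℚ) else 0)) -
      ((if (i.succ, j.succ) = v then (1 : ℚ) else 0) -
      (if (i.castSucc, j.succ) = v then (1 : ℚ) else 0)) +
    (((if (i.succ, j.succ) = v then (1 : ℚ) else 0) -
      (if (i.succ, j.castSucc) = v then (1 : ℚ) else 0)) -
      ((if (i.castSucc, j.succ) = v then (1 : ℚ) else 0) -
      (if (i.castSucc, j.castSucc) = v then (1 : ℚ) else 0))) = 0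
  ring

theorem grid_orth (N : ℕ) : Orth (gs (N := N)) gt gl gr := by
  intro v x
  have h1 : ∀ e : GE N, inc gr gl none e = - ∑ y : Fin N × Fin N, inc gr gl (some y) e := by
    intro e
    have h2 := sum_inc (gr (N := N)) gl (fun _ => (1 : ℚ)) e
    simp only [one_mul, sub_self] at h2
    rw [Fintype.sum_option] at h2
    linarith
  cases x with
  | some x => exact orth_cell v x.1 x.2
  | none =>
    simp only [h1, mul_neg, mul_sum, sum_neg_distrib]
    rw [sum_comm, neg_eq_zero]
    exact sum_eq_zero fun y _ => orth_cell v y.1 y.2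

theorem grid_conn (N : ℕ) : Conn (gs (N := N)) gt := by
  intro φ hφ
  have h1 : ∀ (j i : Fin (N + 1)), φ (i, j) = φ (0, j) := by
    intro j i
    induction i using Fin.induction with
    | zero => rfl
    | succ i ih =>
      rw [← ih]
      exact (hφ (Sum.inl (i, j))).symm
  have h2 : ∀ j : Fin (N + 1), φ (0, j) = φ (0, 0) := by
    intro j
    induction j using Fin.induction with
    | zero => rfl
    | succ j ih =>
      rw [← ih]
      exact (hφ (Sum.inr (0, j))).symm
  intro u v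
  have h3 : ∀ w : Fin (N + 1) × Fin (N + 1), φ w = φ (0, 0) := fun w => (h1 w.2 w.1).trans (h2 w.2)
  rw [h3 u, h3 v]

theorem grid_conn' (N : ℕ) : Conn (gr (N := N)) gl := by
  intro φ hφ
  have h1 : ∀ (a : Fin N) (b : Fin (N + 1)), φ (gr (Sum.inl (a, b))) = φ none := by
    intro a b
    induction b using Fin.induction with
    | zero => rfl
    | succ j ih =>
      rw [← ih, hφ (Sum.inl (a, j.castSucc)), (gl_inl (a, j.castSucc) a j).2 rfl,
        (gr_inl (a, j.succ) a j).2 rfl]
  have h2 : ∀ x, φ x = φ none := by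
    intro x
    cases x with
    | none => rfl
    | some x =>
      rw [← h1 x.1 x.2.succ, (gr_inl (x.1, x.2.succ) x.1 x.2).2 rfl]
  intro u v
  rw [h2 u, h2 v]

theorem grid_isOf (N : ℕ) : IsOf (gridG N) gs gt := by
  refine ⟨?_, ?_, ?_⟩
  · rintro (p | p)
    · exact gridG_adj.2 (Or.inl ⟨rfl, rfl⟩)
    · exact gridG_adj.2 (Or.inr (Or.inr (Or.inl ⟨rfl, rfl⟩)))
  · have key : ∀ u v : Fin (N + 1) × Fin (N + 1), ((u.1.val + 1 = v.1.val ∧ u.2 = v.2) ∨
        (u.1 = v.1 ∧ u.2.val + 1 = v.2.val)) → ∃ e : GE N, gs e = u ∧ gt e = v := by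
      rintro ⟨a, b⟩ ⟨c, d⟩ (⟨h1, h2⟩ | ⟨h1, h2⟩)
      · simp only at h1 h2
        subst h2
        refine ⟨Sum.inl (⟨a.val, by omega⟩, b), ?_, ?_⟩
        · exact Prod.ext (Fin.ext rfl) rfl
        · exact Prod.ext (Fin.ext h1) rfl
      · simp only at h1 h2
        subst h1
        refine ⟨Sum.inr (a, ⟨b.val, by omega⟩), ?_, ?_⟩
        · exact Prod.ext rfl (Fin.ext rfl)
        · exact Prod.ext rfl (Fin.ext h2)
    intro u v huv
    rw [gridG_adj] at huv
    rcases huv with h | h | h | h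
    · obtain ⟨e, rfl, rfl⟩ := key u v (Or.inl h)
      exact ⟨e, rfl⟩
    · obtain ⟨e, rfl, rfl⟩ := key v u (Or.inl ⟨h.1, h.2.symm⟩)
      exact ⟨e, Sym2.eq_swap⟩
    · obtain ⟨e, rfl, rfl⟩ := key u v (Or.inr h)
      exact ⟨e, rfl⟩
    · obtain ⟨e, rfl, rfl⟩ := key v u (Or.inr ⟨h.1.symm, h.2⟩)
      exact ⟨e, Sym2.eq_swap⟩
  · rintro (⟨a, b⟩ | ⟨a, b⟩) (⟨c, d⟩ | ⟨c, d⟩) h
    · have h' : s((a.castSucc, b), (a.succ, b)) = s((c.castSucc, d), (c.succ, d)) := h
      simp only [Sym2.eq_iff, Prod.mk.injEq, Fin.ext_iff, Fin.val_castSucc, Fin.val_succ] at h'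
      have h1 : a = c := Fin.ext (by omega)
      have h2 : b = d := Fin.ext (by omega)
      rw [h1, h2]
    · exfalso
      have h' : s((a.castSucc, b), (a.succ, b)) = s((c, d.castSucc), (c, d.succ)) := h
      simp only [Sym2.eq_iff, Prod.mk.injEq, Fin.ext_iff, Fin.val_castSucc, Fin.val_succ] at h'
      omega
    · exfalso
      have h' : s((a, b.castSucc), (a, b.succ)) = s((c.castSucc, d), (c.succ, d)) := h
      simp only [Sym2.eq_iff, Prod.mk.injEq, Fin.ext_iff, Fin.val_castSucc, Fin.val_succ] at h'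
      omega
    · have h' : s((a, b.castSucc), (a, b.succ)) = s((c, d.castSucc), (c, d.succ)) := h
      simp only [Sym2.eq_iff, Prod.mk.injEq, Fin.ext_iff, Fin.val_castSucc, Fin.val_succ] at h'
      have h1 : a = c := Fin.ext (by omega)
      have h2 : b = d := Fin.ext (by omega)
      rw [h1, h2]

theorem pl_grid (N : ℕ) : Pl (gridG N) := by
  refine ⟨GE N, GF N, inferInstance, inferInstance, inferInstance, inferInstance,
    gs, gt, gl, gr, grid_isOf N, grid_orth N,
    full_of_euler (grid_orth N) (grid_conn N) (grid_conn' N) ?_⟩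
  simp only [Fintype.card_prod, Fintype.card_fin, Fintype.card_option, Fintype.card_sum]
  ring

end Pool.Agent.Draw
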