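import Mathlib
import Pool.Agent.Work.MP_392c8e_co_red.PlG

/-!
# Minors of graphs with an algebraic dual
-/

namespace Pool.Agent.Draw

open Pool.Agent.Red Finset

set_option linter.unusedSectionVars false

/-- Isolated vertices may be dropped. -/
theorem pl_of_map {V W : Type} [Fintype V] [DecidableEq V] [Fintype W] [DecidableEq W]
    {G : SimpleGraph V} (f : V ↪ W) (h : Pl (G.map f)) : Pl G := by
  classical
  obtain ⟨E, F, _, _, _, _, s, t, l, r, ⟨g1, g2, g3⟩, ho, hf⟩ := h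
  have h1 : ∀ e, ∃ u v, G.Adj u v ∧ f u = s e ∧ f v = t e := fun e => by
    have h5 := g1 e
    rw [SimpleGraph.map_adj] at h5
    exact h5
  choose s' t' h2 h3 h4 using h1
  have hi : ∀ v e, inc s' t' v e = inc s t (f v) e := by
    intro v e
    unfold inc
    rw [← h3, ← h4]
    simp only [f.injective.eq_iff]
  refine ⟨E, F, inferInstance, inferInstance, inferInstance, inferInstance, s', t', l, r,
    ⟨h2, ?_, ?_⟩, ?_, ?_⟩
  · intro u v huv
    obtain ⟨e, he⟩ := g2 (f u) (f v) (by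
      rw [SimpleGraph.map_adj]
      exact ⟨u, v, huv, rfl, rfl⟩)
    refine ⟨e, ?_⟩
    rw [← h3, ← h4] at he
    rcases Sym2.eq_iff.1 he with ⟨h5, h6⟩ | ⟨h5, h6⟩
    · rw [f.injective h5, f.injective h6]
    · rw [f.injective h5, f.injective h6]
      exact Sym2.eq_swap
  · intro e e' hee
    refine g3 ?_
    show s(s e, t e) = s(s e', t e')
    have hee' : s(s' e, t' e) = s(s' e', t' e') := hee
    rw [← h3, ← h4, ← h3, ← h4]
    rcases Sym2.eq_iff.1 hee' with ⟨h5, h6⟩ | ⟨h5, h6⟩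
    · rw [h5, h6]
    · rw [h5, h6]
      exact Sym2.eq_swap
  · intro v x
    rw [← ho (f v) x]
    exact sum_congr rfl fun e _ => by rw [hi]
  · intro g hg
    refine hf g fun w => ?_
    by_cases hw : ∃ v, f v = w
    · obtain ⟨v, rfl⟩ := hw
      rw [← hg v]
      exact sum_congr rfl fun e _ => by rw [hi]
    · refine sum_eq_zero fun e _ => ?_
      have h5 : inc s t w e = 0 := by
        unfold inc
        rw [if_neg (fun h6 => hw ⟨t' e, by rw [h4, h6]⟩),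
          if_neg (fun h6 => hw ⟨s' e, by rw [h3, h6]⟩), sub_self]
      rw [h5, zero_mul]

/-- Minors: branch sets and adjacent pairs. -/
theorem pl_of_branch {V X : Type} [Fintype V] [DecidableEq V] [Fintype X] [DecidableEq X]
    {H : SimpleGraph X} (hH : Pl H) {G : SimpleGraph V} (C : V → Set X)
    (hCC : ∀ u v x, x ∈ C u → x ∈ C v → u = v)
    (hCc : ∀ v, ∀ φ : X → ℚ, (∀ x y, H.Adj x y → x ∈ C v → y ∈ C v → φ x = φ y) →
      ∀ x y, x ∈ C v → y ∈ C v → φ x = φ y)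
    (p : V → V → X) (hp : ∀ u v, G.Adj u v → p u v ∈ C u ∧ H.Adj (p u v) (p v u)) : Pl G := by
  classical
  let H' : SimpleGraph X :=
    { Adj := fun x y => H.Adj x y ∧ ((∃ u, x ∈ C u ∧ y ∈ C u) ∨
        ∃ u v, G.Adj u v ∧ x = p u v ∧ y = p v u)
      symm := by
        constructor
        rintro x y ⟨h1, ⟨u, h2, h3⟩ | ⟨u, v, h2, h3, h4⟩⟩
        · exact ⟨h1.symm, Or.inl ⟨u, h3, h2⟩⟩
        · exact ⟨h1.symm, Or.inr ⟨v, u, h2.symm, h4, h3⟩⟩
      loopless := ⟨fun x h => h.1.ne rfl⟩ }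
  have hH' : Pl H' := hH.del (fun x y h => h.1)
  let π : X → V ⊕ X := fun x => if h : ∃ u, x ∈ C u then Sum.inl h.choose else Sum.inr x
  have hπ1 : ∀ u x, x ∈ C u → π x = Sum.inl u := by
    intro u x hx
    have h : ∃ u, x ∈ C u := ⟨u, hx⟩
    show (if h : ∃ u, x ∈ C u then Sum.inl h.choose else Sum.inr x) = _
    rw [dif_pos h, hCC _ _ _ h.choose_spec hx]
  have hπ2 : ∀ x, (∃ u, x ∈ C u ∧ π x = Sum.inl u) ∨ (π x = Sum.inr x) := by
    intro x
    by_cases h : ∃ u, x ∈ C u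
    · obtain ⟨u, hu⟩ := h
      exact Or.inl ⟨u, hu, hπ1 u x hu⟩
    · exact Or.inr (dif_neg h)
  have key : ∀ x y, H'.Adj x y → π x ≠ π y →
      ∃ u v, G.Adj u v ∧ x = p u v ∧ y = p v u ∧ π x = Sum.inl u ∧ π y = Sum.inl v := by
    rintro x y ⟨h1, ⟨u, h2, h3⟩ | ⟨u, v, h2, h3, h4⟩⟩ hne
    · exact absurd ((hπ1 u x h2).trans (hπ1 u y h3).symm) hne
    · refine ⟨u, v, h2, h3, h4, hπ1 u x ?_, hπ1 v y ?_⟩
      · rw [h3]; exact (hp u v h2).1
      · rw [h4]; exact (hp v u h2.symm).1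
  refine pl_of_map (W := V ⊕ X) ⟨Sum.inl, Sum.inl_injective⟩ (hH'.contract π ?_ ?_ ?_ ?_)
  · intro x y h hne
    obtain ⟨u, v, h1, -, -, h2, h3⟩ := key x y h hne
    rw [SimpleGraph.map_adj]
    exact ⟨u, v, h1, h2.symm, h3.symm⟩
  · intro x y h
    rw [SimpleGraph.map_adj] at h
    obtain ⟨u, v, h1, rfl, rfl⟩ := h
    exact ⟨p u v, p v u, ⟨(hp u v h1).2, Or.inr ⟨u, v, h1, rfl, rfl⟩⟩,
      hπ1 u _ (hp u v h1).1, hπ1 v _ (hp v u h1.symm).1⟩
  · intro x y x' y' h h' hx hy hne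
    obtain ⟨u, v, -, h2, h3, h4, h5⟩ := key x y h hne
    obtain ⟨u', v', -, h2', h3', h4', h5'⟩ := key x' y' h' (by rw [← hx, ← hy]; exact hne)
    have h6 : u = u' := Sum.inl_injective (h4.symm.trans (hx.trans h4'))
    have h7 : v = v' := Sum.inl_injective (h5.symm.trans (hy.trans h5'))
    subst h6 h7
    exact ⟨h2.trans h2'.symm, h3.trans h3'.symm⟩
  · intro φ hφ x y hxy
    rcases hπ2 x with ⟨u, hu, hxu⟩ | hx
    · rcases hπ2 y with ⟨v, hv, hyv⟩ | hy
      · have h6 : u = v := Sum.inl_injective (hxu.symm.trans (hxy.trans hyv))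
        subst h6
        refine hCc u φ (fun a b hab ha hb => ?_) x y hu hv
        exact hφ a b ⟨hab, Or.inl ⟨u, ha, hb⟩⟩ ((hπ1 u a ha).trans (hπ1 u b hb).symm)
      · rw [hxu, hy] at hxy
        exact absurd hxy Sum.inl_ne_inr
    · rcases hπ2 y with ⟨v, hv, hyv⟩ | hy
      · rw [hyv, hx] at hxy
        exact absurd hxy Sum.inr_ne_inl
      · rw [hx, hy] at hxy
        rw [Sum.inr_injective hxy]

/-- Topological minors of a graph with an algebraic dual. -/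
theorem pl_of_minor {V X : Type} [Fintype V] [DecidableEq V] [Fintype X] [DecidableEq X]
    {H : SimpleGraph X} (hH : Pool.Agent.Red.Pl H) {G : SimpleGraph V} (B : V → Set X)
    (A : V → V → Set X)
    (hBB : ∀ u v, u ≠ v → Disjoint (B u) (B v)) (_hBne : ∀ v, (B v).Nonempty)
    (hBc : ∀ v, ∀ x ∈ B v, ∀ y ∈ B v, ∃ w : H.Walk x y, ∀ z ∈ w.support, z ∈ B v)
    (hW : ∀ u v, G.Adj u v → ∃ x ∈ B u, ∃ y ∈ B v, ∃ w : H.Walk x y,
      ∀ z ∈ w.support, z ∈ B u ∨ z ∈ A u v ∨ z ∈ B v)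
    (hAB : ∀ u v w, G.Adj u v → w ≠ u → w ≠ v → Disjoint (A u v) (B w))
    (hAA : ∀ u v x y, G.Adj u v → G.Adj x y → s(u, v) ≠ s(x, y) → Disjoint (A u v) (A x y)) :
    Pool.Agent.Red.Pl G := by
  classical
  let ι := Fintype.equivFin V
  let R : V → V → X → X → Prop := fun u v a b =>
    H.Adj a b ∧ (b ∈ B u ∨ b ∈ A u v) ∧ b ∉ B v
  let D : V → V → Set X := fun u v => {z | ∃ x ∈ B u, Relation.ReflTransGen (R u v) x z}
  let C : V → Set X := fun u => {z | z ∈ B u ∨ ∃ v, G.Adj u v ∧ ι u < ι v ∧ z ∈ D u v}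
  have hBd : ∀ u v x, x ∈ B u → x ∈ B v → u = v := by
    intro u v x h1 h2
    by_contra h3
    exact Set.disjoint_left.1 (hBB u v h3) h1 h2
  have hD : ∀ u v z, G.Adj u v → z ∈ D u v → (z ∈ B u ∨ z ∈ A u v) ∧ z ∉ B v := by
    rintro u v z huv ⟨x, hx, hxz⟩
    induction hxz with
    | refl => exact ⟨Or.inl hx, fun h => huv.ne (hBd _ _ _ hx h)⟩
    | tail _ h _ => exact h.2
  have hBC : ∀ u z, z ∈ B u → ∀ v, z ∈ C v → u = v := by
    rintro u z hz v (h | ⟨w, h1, h2, h3⟩)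
    · exact hBd _ _ _ hz h
    · obtain ⟨h4 | h4, h5⟩ := hD v w z h1 h3
      · exact hBd _ _ _ hz h4
      · by_contra h6
        exact Set.disjoint_left.1 (hAB v w u h1 h6 (fun h7 => h5 (by rw [← h7]; exact hz))) h4 hz
  have hCC : ∀ u v x, x ∈ C u → x ∈ C v → u = v := by
    intro u v x hu hv
    rcases hu with h | ⟨w, h1, h2, h3⟩
    · exact hBC u x h v hv
    rcases hv with h' | ⟨w', h1', h2', h3'⟩
    · exact (hBC v x h' u (Or.inr ⟨w, h1, h2, h3⟩)).symm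
    obtain ⟨h4 | h4, -⟩ := hD u w x h1 h3
    · exact hBC u x h4 v (Or.inr ⟨w', h1', h2', h3'⟩)
    obtain ⟨h4' | h4', -⟩ := hD v w' x h1' h3'
    · exact (hBC v x h4' u (Or.inr ⟨w, h1, h2, h3⟩)).symm
    by_contra h5
    refine Set.disjoint_left.1 (hAA u w v w' h1 h1' fun h6 => ?_) h4 h4'
    rcases Sym2.eq_iff.1 h6 with ⟨h7, -⟩ | ⟨h7, h8⟩
    · exact h5 h7
    · rw [h7, h8] at h2
      exact lt_asymm h2 h2'
  have hCc : ∀ v, ∀ φ : X → ℚ, (∀ x y, H.Adj x y → x ∈ C v → y ∈ C v → φ x = φ y) →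
      ∀ x y, x ∈ C v → y ∈ C v → φ x = φ y := by
    intro u φ hφ
    have h1 : ∀ x y, ∀ w : H.Walk x y, (∀ z ∈ w.support, z ∈ B u) → φ x = φ y := by
      intro x y w
      induction w with
      | nil => intro _; rfl
      | cons h q ih =>
        intro hw
        rw [SimpleGraph.Walk.support_cons] at hw
        refine (hφ _ _ h (Or.inl (hw _ List.mem_cons_self))
          (Or.inl (hw _ (List.mem_cons_of_mem _ q.start_mem_support)))).trans
          (ih fun z hz => hw z (List.mem_cons_of_mem _ hz))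
    have h2 : ∀ x y, x ∈ B u → y ∈ B u → φ x = φ y := by
      intro x y hx hy
      obtain ⟨w, hw⟩ := hBc u x hx y hy
      exact h1 x y w hw
    have h3 : ∀ z, z ∈ C u → ∃ x ∈ B u, φ x = φ z := by
      rintro z (h | ⟨v, h4, h5, x, hx, hxz⟩)
      · exact ⟨z, h, rfl⟩
      · refine ⟨x, hx, ?_⟩
        induction hxz with
        | refl => rfl
        | tail h6 h7 ih =>
          exact ih.trans (hφ _ _ h7.1 (Or.inr ⟨v, h4, h5, x, hx, h6⟩)
            (Or.inr ⟨v, h4, h5, x, hx, h6.tail h7⟩))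
    intro x y hx hy
    obtain ⟨x', hx', h4⟩ := h3 x hx
    obtain ⟨y', hy', h5⟩ := h3 y hy
    rw [← h4, ← h5]
    exact h2 x' y' hx' hy'
  have hE : ∀ u v, G.Adj u v → ι u < ι v → ∃ a b, a ∈ C u ∧ b ∈ C v ∧ H.Adj a b := by
    intro u v huv hlt
    have h1 : ∀ a y, ∀ w : H.Walk a y, y ∈ B v → a ∈ D u v →
        (∀ z ∈ w.support, z ∈ B u ∨ z ∈ A u v ∨ z ∈ B v) →
        ∃ a b, a ∈ C u ∧ b ∈ C v ∧ H.Adj a b := by
      intro a y w
      induction w with
      | nil =>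
        intro h2 h3
        exact absurd h2 (hD u v _ huv h3).2
      | @cons a b y h q ih =>
        intro h2 h3 h4
        rw [SimpleGraph.Walk.support_cons] at h4
        by_cases h5 : b ∈ B v
        · exact ⟨a, b, Or.inr ⟨v, huv, hlt, h3⟩, Or.inl h5, h⟩
        · refine ih h2 ?_ fun z hz => h4 z (List.mem_cons_of_mem _ hz)
          obtain ⟨x, hx, hxa⟩ := h3
          refine ⟨x, hx, hxa.tail ⟨h, ?_, h5⟩⟩
          rcases h4 b (List.mem_cons_of_mem _ q.start_mem_support) with h6 | h6 | h6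
          · exact Or.inl h6
          · exact Or.inr h6
          · exact absurd h6 h5
    obtain ⟨x, hx, y, hy, w, hw⟩ := hW u v huv
    exact h1 x y w hy ⟨x, hx, Relation.ReflTransGen.refl⟩ hw
  have hE' : ∀ u v, ∃ a b, G.Adj u v → ι u < ι v → a ∈ C u ∧ b ∈ C v ∧ H.Adj a b := by
    intro u v
    by_cases h1 : G.Adj u v ∧ ι u < ι v
    · obtain ⟨a, b, h2⟩ := hE u v h1.1 h1.2
      exact ⟨a, b, fun _ _ => h2⟩
    · obtain ⟨x, hx⟩ := _hBne u
      exact ⟨x, x, fun h2 h3 => absurd ⟨h2, h3⟩ h1⟩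
  choose f g hfg using hE'
  refine pl_of_branch hH C hCC hCc (fun u v => if ι u < ι v then f u v else g v u) fun u v huv => ?_
  have hne : ι u ≠ ι v := fun h => huv.ne (ι.injective h)
  rcases lt_or_gt_of_ne hne with h1 | h1
  · rw [if_pos h1, if_neg (not_lt.2 h1.le)]
    obtain ⟨h2, h3, h4⟩ := hfg u v huv h1
    exact ⟨h2, h4⟩
  · rw [if_neg (not_lt.2 h1.le), if_pos h1]
    obtain ⟨h2, h3, h4⟩ := hfg v u huv.symm h1
    exact ⟨h3, h4.symm⟩

end Pool.Agent.Draw
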