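import Mathlib
import Pool.Agent.Work.MP_392c8e_co_draw.Defs

/-!
# Boxes in the grid are connected; rounding
-/

namespace Pool.Agent.Draw

open Metric Set

variable {N : ℕ}

theorem line1 (j : Fin (N + 1)) (n : ℕ) : ∀ a b : Fin (N + 1), a.val + n = b.val →
    ∃ w : (gridG N).Walk (a, j) (b, j), ∀ z ∈ w.support, a ≤ z.1 ∧ z.1 ≤ b ∧ z.2 = j := by
  induction n with
  | zero =>
    intro a b hab
    have h1 : a = b := Fin.ext (by omega)
    subst h1
    refine ⟨SimpleGraph.Walk.nil, fun z hz => ?_⟩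
    rw [SimpleGraph.Walk.support_nil, List.mem_singleton] at hz
    subst hz
    exact ⟨le_rfl, le_rfl, rfl⟩
  | succ n ih =>
    intro a b hab
    have hb : a.val + 1 < N + 1 := by omega
    obtain ⟨w, hw⟩ := ih ⟨a.val + 1, hb⟩ b (by simp only; omega)
    have hadj : (gridG N).Adj (a, j) (⟨a.val + 1, hb⟩, j) := gridG_adj.2 (Or.inl ⟨rfl, rfl⟩)
    refine ⟨SimpleGraph.Walk.cons hadj w, fun z hz => ?_⟩
    rw [SimpleGraph.Walk.support_cons, List.mem_cons] at hz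
    rcases hz with rfl | hz
    · exact ⟨le_rfl, by rw [Fin.le_def]; simp only; omega, rfl⟩
    · obtain ⟨h1, h2, h3⟩ := hw z hz
      refine ⟨?_, h2, h3⟩
      rw [Fin.le_def] at h1 ⊢
      simp only at h1
      omega

theorem line2 (i : Fin (N + 1)) (n : ℕ) : ∀ a b : Fin (N + 1), a.val + n = b.val →
    ∃ w : (gridG N).Walk (i, a) (i, b), ∀ z ∈ w.support, a ≤ z.2 ∧ z.2 ≤ b ∧ z.1 = i := by
  induction n with
  | zero =>
    intro a b hab
    have h1 : a = b := Fin.ext (by omega)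
    subst h1
    refine ⟨SimpleGraph.Walk.nil, fun z hz => ?_⟩
    rw [SimpleGraph.Walk.support_nil, List.mem_singleton] at hz
    subst hz
    exact ⟨le_rfl, le_rfl, rfl⟩
  | succ n ih =>
    intro a b hab
    have hb : a.val + 1 < N + 1 := by omega
    obtain ⟨w, hw⟩ := ih ⟨a.val + 1, hb⟩ b (by simp only; omega)
    have hadj : (gridG N).Adj (i, a) (i, ⟨a.val + 1, hb⟩) :=
      gridG_adj.2 (Or.inr (Or.inr (Or.inl ⟨rfl, rfl⟩)))
    refine ⟨SimpleGraph.Walk.cons hadj w, fun z hz => ?_⟩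
    rw [SimpleGraph.Walk.support_cons, List.mem_cons] at hz
    rcases hz with rfl | hz
    · exact ⟨le_rfl, by rw [Fin.le_def]; simp only; omega, rfl⟩
    · obtain ⟨h1, h2, h3⟩ := hw z hz
      refine ⟨?_, h2, h3⟩
      rw [Fin.le_def] at h1 ⊢
      simp only at h1
      omega

theorem walk1 (j a b : Fin (N + 1)) : ∃ w : (gridG N).Walk (a, j) (b, j),
    ∀ z ∈ w.support, min a b ≤ z.1 ∧ z.1 ≤ max a b ∧ z.2 = j := by
  rcases le_total a b with h | h
  · obtain ⟨w, hw⟩ := line1 j (b.val - a.val) a b (by rw [Fin.le_def] at h; omega)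
    refine ⟨w, fun z hz => ?_⟩
    rw [min_eq_left h, max_eq_right h]
    exact hw z hz
  · obtain ⟨w, hw⟩ := line1 j (a.val - b.val) b a (by rw [Fin.le_def] at h; omega)
    refine ⟨w.reverse, fun z hz => ?_⟩
    rw [min_eq_right h, max_eq_left h]
    rw [SimpleGraph.Walk.support_reverse, List.mem_reverse] at hz
    exact hw z hz

theorem walk2 (i a b : Fin (N + 1)) : ∃ w : (gridG N).Walk (i, a) (i, b),
    ∀ z ∈ w.support, min a b ≤ z.2 ∧ z.2 ≤ max a b ∧ z.1 = i := by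
  rcases le_total a b with h | h
  · obtain ⟨w, hw⟩ := line2 i (b.val - a.val) a b (by rw [Fin.le_def] at h; omega)
    refine ⟨w, fun z hz => ?_⟩
    rw [min_eq_left h, max_eq_right h]
    exact hw z hz
  · obtain ⟨w, hw⟩ := line2 i (a.val - b.val) b a (by rw [Fin.le_def] at h; omega)
    refine ⟨w.reverse, fun z hz => ?_⟩
    rw [min_eq_right h, max_eq_left h]
    rw [SimpleGraph.Walk.support_reverse, List.mem_reverse] at hz
    exact hw z hz

theorem between {δ : ℝ} (hδ : 0 < δ) {c x ρ : ℝ} {a b z : Fin (N + 1)}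
    (ha : dist (c + δ * a.val) x ≤ ρ) (hb : dist (c + δ * b.val) x ≤ ρ)
    (h1 : min a b ≤ z) (h2 : z ≤ max a b) : dist (c + δ * z.val) x ≤ ρ := by
  have key : ∀ a b : Fin (N + 1), dist (c + δ * a.val) x ≤ ρ → dist (c + δ * b.val) x ≤ ρ →
      a ≤ z → z ≤ b → dist (c + δ * z.val) x ≤ ρ := by
    intro a b ha hb h1 h2
    rw [Real.dist_eq, abs_le] at ha hb ⊢
    have h3 : (a.val : ℝ) ≤ z.val := by exact_mod_cast h1
    have h4 : (z.val : ℝ) ≤ b.val := by exact_mod_cast h2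
    have h5 := mul_le_mul_of_nonneg_left h3 hδ.le
    have h6 := mul_le_mul_of_nonneg_left h4 hδ.le
    constructor <;> linarith
  rcases le_total a b with h | h
  · rw [min_eq_left h] at h1
    rw [max_eq_right h] at h2
    exact key a b ha hb h1 h2
  · rw [min_eq_right h] at h1
    rw [max_eq_left h] at h2
    exact key b a hb ha h1 h2

theorem dist_P {δ : ℝ} {c x : ℝ × ℝ} {ρ : ℝ} {g : Fin (N + 1) × Fin (N + 1)} :
    dist (P δ c g) x ≤ ρ ↔ dist (c.1 + δ * g.1.val) x.1 ≤ ρ ∧ dist (c.2 + δ * g.2.val) x.2 ≤ ρ := by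
  rw [Prod.dist_eq, max_le_iff]
  rfl

/-- Boxes of grid points are connected. -/
theorem box_conn {δ : ℝ} (hδ : 0 < δ) (c x : ℝ × ℝ) (ρ : ℝ) (g h : Fin (N + 1) × Fin (N + 1))
    (hg : dist (P δ c g) x ≤ ρ) (hh : dist (P δ c h) x ≤ ρ) :
    ∃ w : (gridG N).Walk g h, ∀ z ∈ w.support, dist (P δ c z) x ≤ ρ := by
  obtain ⟨a, b⟩ := g
  obtain ⟨a', b'⟩ := h
  rw [dist_P] at hg hh
  obtain ⟨w, hw⟩ := walk1 b a a'
  obtain ⟨w', hw'⟩ := walk2 a' b b'
  refine ⟨w.append w', fun z hz => ?_⟩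
  rw [dist_P]
  rcases (SimpleGraph.Walk.mem_support_append_iff _ _).1 hz with h | h
  · obtain ⟨h1, h2, h3⟩ := hw z h
    exact ⟨between hδ hg.1 hh.1 h1 h2, by rw [h3]; exact hg.2⟩
  · obtain ⟨h1, h2, h3⟩ := hw' z h
    exact ⟨by rw [h3]; exact hh.1, between hδ hg.2 hh.2 h1 h2⟩

theorem exists_floor {δ : ℝ} (hδ : 0 < δ) (c x : ℝ) (h1 : c ≤ x) (h2 : x < c + δ * (N + 1)) :
    ∃ i : Fin (N + 1), dist (c + δ * i.val) x ≤ δ := by
  have h3 : 0 ≤ (x - c) / δ := div_nonneg (by linarith) hδ.le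
  have h4 : (x - c) / δ < N + 1 := by
    rw [div_lt_iff₀ hδ]
    linarith
  have h5 : ⌊(x - c) / δ⌋₊ < N + 1 := by
    rw [Nat.floor_lt h3]
    push_cast
    exact h4
  refine ⟨⟨⌊(x - c) / δ⌋₊, h5⟩, ?_⟩
  have h6 := Nat.floor_le h3
  have h7 := Nat.lt_floor_add_one ((x - c) / δ)
  rw [le_div_iff₀ hδ] at h6
  rw [div_lt_iff₀ hδ] at h7
  rw [Real.dist_eq, abs_le]
  simp only
  constructor <;> linarith

/-- Rounding. -/
theorem exists_round {δ : ℝ} (hδ : 0 < δ) (c x : ℝ × ℝ) (h1 : c.1 ≤ x.1)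
    (h2 : x.1 < c.1 + δ * (N + 1)) (h3 : c.2 ≤ x.2) (h4 : x.2 < c.2 + δ * (N + 1)) :
    ∃ g : Fin (N + 1) × Fin (N + 1), dist (P δ c g) x ≤ δ := by
  obtain ⟨i, hi⟩ := exists_floor hδ c.1 x.1 h1 h2
  obtain ⟨j, hj⟩ := exists_floor hδ c.2 x.2 h3 h4
  exact ⟨(i, j), dist_P.2 ⟨hi, hj⟩⟩

end Pool.Agent.Draw
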