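import Mathlib
import Pool.Agent.Work.MP_392c8e_co_draw.Round

/-!
# From a drawing to the grid
-/

namespace Pool.Agent.Draw

open Metric Set

/-- Disjoint compact sets have positive distance. -/
theorem exists_sep {K L : Set (ℝ × ℝ)} (hK : IsCompact K) (hL : IsCompact L)
    (h : Disjoint K L) : ∃ ε : ℝ, 0 < ε ∧ ∀ x ∈ K, ∀ y ∈ L, ε < dist x y := by
  obtain ⟨δ, hδ, h1⟩ := h.exists_thickenings hK hL.isClosed
  refine ⟨δ / 2, by linarith, fun x hx y hy => ?_⟩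
  by_contra h2
  push Not at h2
  have h3 : x ∈ thickening δ K := mem_thickening_iff.2 ⟨x, hx, by rw [dist_self]; exact hδ⟩
  have h4 : x ∈ thickening δ L := mem_thickening_iff.2 ⟨y, hy, by linarith⟩
  exact Set.disjoint_left.1 h1 h3 h4

/-- Finitely many bounds have a common one. -/
theorem exists_common {ι : Type*} [Finite ι] (Q : ι → ℝ → Prop)
    (hQ : ∀ i ε ε', Q i ε → ε' ≤ ε → Q i ε') (h : ∀ i, ∃ ε, 0 < ε ∧ Q i ε) :
    ∃ ε, 0 < ε ∧ ∀ i, Q i ε := by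
  choose f hf hf' using h
  rcases isEmpty_or_nonempty ι with h | h
  · exact ⟨1, one_pos, fun i => h.elim i⟩
  · obtain ⟨i, hi⟩ := Finite.exists_min f
    exact ⟨f i, hf i, fun j => hQ j _ _ (hf' j) (hi j)⟩

/-- The walk along a curve. -/
theorem curve_walk {N : ℕ} {δ : ℝ} (hδ : 0 < δ) (c : ℝ × ℝ) (γ : unitInterval → ℝ × ℝ)
    (hγ : Continuous γ) (h1 : ∀ t, c.1 ≤ (γ t).1) (h2 : ∀ t, (γ t).1 < c.1 + δ * (N + 1))
    (h3 : ∀ t, c.2 ≤ (γ t).2) (h4 : ∀ t, (γ t).2 < c.2 + δ * (N + 1)) :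
    ∃ g h : Fin (N + 1) × Fin (N + 1), dist (P δ c g) (γ 0) ≤ δ ∧ dist (P δ c h) (γ 1) ≤ δ ∧
      ∃ w : (gridG N).Walk g h, ∀ z ∈ w.support, ∃ t, dist (P δ c z) (γ t) ≤ 2 * δ := by
  have h5 : ∀ t, ∃ g : Fin (N + 1) × Fin (N + 1), dist (P δ c g) (γ t) ≤ δ :=
    fun t => exists_round hδ c (γ t) (h1 t) (h2 t) (h3 t) (h4 t)
  choose g hg using h5
  refine ⟨g 0, g 1, hg 0, hg 1, ?_⟩
  have h6 : ∀ t t', dist (γ t') (γ t) < δ → ∃ w : (gridG N).Walk (g t) (g t'),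
      ∀ z ∈ w.support, ∃ t, dist (P δ c z) (γ t) ≤ 2 * δ := by
    intro t t' htt
    obtain ⟨w, hw⟩ := box_conn hδ c (γ t) (2 * δ) (g t) (g t') (by linarith [hg t]) (by
      have := dist_triangle (P δ c (g t')) (γ t') (γ t)
      linarith [hg t'])
    exact ⟨w, fun z hz => ⟨t, hw z hz⟩⟩
  set R : unitInterval → Prop := fun t => ∃ w : (gridG N).Walk (g 0) (g t),
      ∀ z ∈ w.support, ∃ t, dist (P δ c z) (γ t) ≤ 2 * δ with hR
  have hlc : IsLocallyConstant R := by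
    rw [IsLocallyConstant.iff_eventually_eq]
    intro t
    have h7 : ∀ᶠ t' in nhds t, dist (γ t') (γ t) < δ :=
      (hγ.tendsto t).eventually (Metric.ball_mem_nhds _ hδ)
    filter_upwards [h7] with t' ht'
    refine propext ⟨?_, ?_⟩
    · rintro ⟨w, hw⟩
      obtain ⟨w', hw'⟩ := h6 t' t (by rw [dist_comm]; exact ht')
      refine ⟨w.append w', fun z hz => ?_⟩
      rcases (SimpleGraph.Walk.mem_support_append_iff _ _).1 hz with h | h
      · exact hw z h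
      · exact hw' z h
    · rintro ⟨w, hw⟩
      obtain ⟨w', hw'⟩ := h6 t t' ht'
      refine ⟨w.append w', fun z hz => ?_⟩
      rcases (SimpleGraph.Walk.mem_support_append_iff _ _).1 hz with h | h
      · exact hw z h
      · exact hw' z h
  have h8 : R 1 = R 0 := hlc.apply_eq_of_preconnectedSpace 1 0
  have h9 : R 0 := ⟨SimpleGraph.Walk.nil, fun z hz => by
    rw [SimpleGraph.Walk.support_nil, List.mem_singleton] at hz
    exact ⟨0, by rw [hz]; linarith [hg 0]⟩⟩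
  rw [← h8] at h9
  exact h9

/-- The grid model of a drawing. -/
theorem exists_grid {V : Type} [Fintype V] {G : SimpleGraph V} (p : V → ℝ × ℝ)
    (γ : V → V → unitInterval → ℝ × ℝ) (hp : Function.Injective p)
    (h1 : ∀ u v, G.Adj u v →
      Continuous (γ u v) ∧ Function.Injective (γ u v) ∧
      γ u v 0 = p u ∧ γ u v 1 = p v ∧
      ∀ (t : unitInterval) (w : V), γ u v t = p w → w = u ∨ w = v)
    (h2 : ∀ u v x y, G.Adj u v → G.Adj x y → s(u, v) ≠ s(x, y) →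
      ∀ (a b : unitInterval), γ u v a = γ x y b →
        (γ u v a = p u ∨ γ u v a = p v) ∧ (γ u v a = p x ∨ γ u v a = p y)) :
    ∃ (N : ℕ) (B : V → Set (Fin (N + 1) × Fin (N + 1)))
      (A : V → V → Set (Fin (N + 1) × Fin (N + 1))),
      (∀ u v, u ≠ v → Disjoint (B u) (B v)) ∧ (∀ v, (B v).Nonempty) ∧
      (∀ v, ∀ x ∈ B v, ∀ y ∈ B v, ∃ w : (gridG N).Walk x y, ∀ z ∈ w.support, z ∈ B v) ∧
      (∀ u v, G.Adj u v → ∃ x ∈ B u, ∃ y ∈ B v, ∃ w : (gridG N).Walk x y,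
        ∀ z ∈ w.support, z ∈ B u ∨ z ∈ A u v ∨ z ∈ B v) ∧
      (∀ u v w, G.Adj u v → w ≠ u → w ≠ v → Disjoint (A u v) (B w)) ∧
      (∀ u v x y, G.Adj u v → G.Adj x y → s(u, v) ≠ s(x, y) →
        Disjoint (A u v) (A x y)) := by
  -- the bounding box
  obtain ⟨R, hR⟩ : ∃ R : ℝ, (∀ v, ‖p v‖ ≤ R) ∧ ∀ u v, G.Adj u v → ∀ t, ‖γ u v t‖ ≤ R := by
    have h3 : Bornology.IsBounded (range p ∪ ⋃ e : {e : V × V // G.Adj e.1 e.2},
        range (γ e.1.1 e.1.2)) :=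
      (Set.finite_range p).isBounded.union
        (Bornology.isBounded_iUnion.2 fun e => (isCompact_range (h1 _ _ e.2).1).isBounded)
    obtain ⟨R, hR⟩ := h3.exists_norm_le
    exact ⟨R, fun v => hR _ (Or.inl ⟨v, rfl⟩), fun u v huv t =>
      hR _ (Or.inr (mem_iUnion.2 ⟨⟨(u, v), huv⟩, t, rfl⟩))⟩
  -- the radius
  obtain ⟨ρ, hρ, hρ1, hρ2⟩ : ∃ ρ : ℝ, 0 < ρ ∧ (∀ u v, u ≠ v → 4 * ρ ≤ dist (p u) (p v)) ∧
      ∀ u v w, G.Adj u v → w ≠ u → w ≠ v → ∀ t, 2 * ρ ≤ dist (γ u v t) (p w) := by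
    obtain ⟨ε1, hε1, hQ1⟩ := exists_common (ι := V × V) (fun e ε =>
        e.1 ≠ e.2 → ε ≤ dist (p e.1) (p e.2)) (fun e ε ε' hk hle h => hle.trans (hk h)) (by
      rintro ⟨u, v⟩
      by_cases huv : u = v
      · exact ⟨1, one_pos, fun h => absurd huv h⟩
      · exact ⟨dist (p u) (p v), dist_pos.2 (hp.ne huv), fun _ => le_rfl⟩)
    obtain ⟨ε2, hε2, hQ2⟩ := exists_common (ι := V × V × V) (fun e ε =>
        G.Adj e.1 e.2.1 → e.2.2 ≠ e.1 → e.2.2 ≠ e.2.1 → ∀ t, ε ≤ dist (γ e.1 e.2.1 t) (p e.2.2))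
        (fun e ε ε' hk hle h h' h'' t => hle.trans (hk h h' h'' t)) (by
      rintro ⟨u, v, w⟩
      by_cases huv : G.Adj u v ∧ w ≠ u ∧ w ≠ v
      · obtain ⟨k1, k2, k3, k4, k5⟩ := h1 u v huv.1
        obtain ⟨ε, hε, h3⟩ := exists_sep (K := range (γ u v)) (L := {p w})
          (isCompact_range k1) isCompact_singleton (by
            rw [Set.disjoint_left]
            rintro _ ⟨t, rfl⟩ h4
            rcases k5 t w h4 with h5 | h5
            · exact huv.2.1 h5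
            · exact huv.2.2 h5)
        exact ⟨ε, hε, fun _ _ _ t => (h3 _ ⟨t, rfl⟩ _ rfl).le⟩
      · exact ⟨1, one_pos, fun h h' h'' => absurd ⟨h, h', h''⟩ huv⟩)
    refine ⟨min (ε1 / 4) (ε2 / 2), by positivity, fun u v huv => ?_, fun u v w huv hu hv t => ?_⟩
    · have h3 := hQ1 (u, v) huv
      have h4 := min_le_left (ε1 / 4) (ε2 / 2)
      simp only at h3
      linarith
    · have h3 := hQ2 (u, v, w) huv hu hv t
      have h4 := min_le_right (ε1 / 4) (ε2 / 2)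
      simp only at h3
      linarith
  -- the mesh
  obtain ⟨δ, hδ, hδρ, hδ1⟩ : ∃ δ : ℝ, 0 < δ ∧ 4 * δ < ρ ∧
      ∀ u v x y, G.Adj u v → G.Adj x y → s(u, v) ≠ s(x, y) → ∀ a b,
        ρ / 2 ≤ dist (γ u v a) (p u) → ρ / 2 ≤ dist (γ u v a) (p v) →
        ρ / 2 ≤ dist (γ x y b) (p x) → ρ / 2 ≤ dist (γ x y b) (p y) →
        4 * δ < dist (γ u v a) (γ x y b) := by
    obtain ⟨ε1, hε1, hQ1⟩ := exists_common (ι := (V × V) × (V × V)) (fun e ε =>
        G.Adj e.1.1 e.1.2 → G.Adj e.2.1 e.2.2 → s(e.1.1, e.1.2) ≠ s(e.2.1, e.2.2) → ∀ a b,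
        ρ / 2 ≤ dist (γ e.1.1 e.1.2 a) (p e.1.1) → ρ / 2 ≤ dist (γ e.1.1 e.1.2 a) (p e.1.2) →
        ρ / 2 ≤ dist (γ e.2.1 e.2.2 b) (p e.2.1) → ρ / 2 ≤ dist (γ e.2.1 e.2.2 b) (p e.2.2) →
        ε < dist (γ e.1.1 e.1.2 a) (γ e.2.1 e.2.2 b))
        (fun e ε ε' hk hle h h' h'' a b g1 g2 g3 g4 => hle.trans_lt (hk h h' h'' a b g1 g2 g3 g4))
        (by
      rintro ⟨⟨u, v⟩, ⟨x, y⟩⟩
      by_cases huv : G.Adj u v ∧ G.Adj x y ∧ s(u, v) ≠ s(x, y)
      · obtain ⟨k1, -⟩ := h1 u v huv.1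
        obtain ⟨k1', -⟩ := h1 x y huv.2.1
        have hcpt : ∀ (f : unitInterval → ℝ × ℝ), Continuous f → ∀ a b : ℝ × ℝ,
            IsCompact (f '' {t | ρ / 2 ≤ dist (f t) a ∧ ρ / 2 ≤ dist (f t) b}) := by
          intro f hf a b
          refine IsCompact.image (IsClosed.isCompact ?_) hf
          exact (isClosed_le continuous_const (hf.dist continuous_const)).inter
            (isClosed_le continuous_const (hf.dist continuous_const))
        obtain ⟨ε, hε, h3⟩ := exists_sep (hcpt (γ u v) k1 (p u) (p v))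
          (hcpt (γ x y) k1' (p x) (p y)) (by
            rw [Set.disjoint_left]
            rintro _ ⟨a, ⟨ha1, ha2⟩, rfl⟩ ⟨b, -, hb⟩
            rcases (h2 u v x y huv.1 huv.2.1 huv.2.2 a b hb.symm).1 with h4 | h4
            · rw [h4, dist_self] at ha1
              linarith
            · rw [h4, dist_self] at ha2
              linarith)
        exact ⟨ε, hε, fun _ _ _ a b g1 g2 g3 g4 =>
          h3 _ ⟨a, ⟨g1, g2⟩, rfl⟩ _ ⟨b, ⟨g3, g4⟩, rfl⟩⟩
      · exact ⟨1, one_pos, fun h h' h'' => absurd ⟨h, h', h''⟩ huv⟩)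
    refine ⟨min (ε1 / 4) (ρ / 5), by positivity, ?_, fun u v x y huv hxy hne a b g1 g2 g3 g4 => ?_⟩
    · have h4 := min_le_right (ε1 / 4) (ρ / 5)
      linarith
    · have h3 := hQ1 ((u, v), (x, y)) huv hxy hne a b g1 g2 g3 g4
      have h4 := min_le_left (ε1 / 4) (ρ / 5)
      simp only at h3
      linarith
  obtain ⟨N, hN⟩ := exists_nat_gt (2 * R / δ)
  have hN' : 2 * R < δ * (N + 1) := by
    rw [div_lt_iff₀ hδ] at hN
    nlinarith
  set c : ℝ × ℝ := (-R, -R) with hc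
  have hbox : ∀ x : ℝ × ℝ, ‖x‖ ≤ R → c.1 ≤ x.1 ∧ x.1 < c.1 + δ * (N + 1) ∧ c.2 ≤ x.2 ∧
      x.2 < c.2 + δ * (N + 1) := by
    intro x hx
    rw [Prod.norm_def, max_le_iff, Real.norm_eq_abs, Real.norm_eq_abs, abs_le, abs_le] at hx
    refine ⟨hx.1.1, ?_, hx.2.1, ?_⟩
    · show x.1 < -R + δ * (N + 1)
      linarith [hx.1.2]
    · show x.2 < -R + δ * (N + 1)
      linarith [hx.2.2]
  refine ⟨N, fun v => {g | dist (P δ c g) (p v) ≤ ρ}, fun u v => {g | ∃ t,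
    ρ / 2 ≤ dist (γ u v t) (p u) ∧ ρ / 2 ≤ dist (γ u v t) (p v) ∧
      dist (P δ c g) (γ u v t) ≤ 2 * δ}, ?_, ?_, ?_, ?_, ?_, ?_⟩
  · intro u v huv
    rw [Set.disjoint_left]
    intro g hg hg'
    have h3 := dist_triangle_left (p u) (p v) (P δ c g)
    have h4 := hρ1 u v huv
    rw [mem_ofPred_eq] at hg hg'
    linarith
  · intro v
    obtain ⟨k1, k2, k3, k4⟩ := hbox _ (hR.1 v)
    obtain ⟨g, hg⟩ := exists_round (N := N) hδ c (p v) k1 k2 k3 k4
    exact ⟨g, by rw [mem_ofPred_eq]; linarith⟩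
  · intro v x hx y hy
    exact box_conn hδ c (p v) ρ x y hx hy
  · intro u v huv
    obtain ⟨k1, k2, k3, k4, k5⟩ := h1 u v huv
    obtain ⟨g, h, hg, hh, w, hw⟩ := curve_walk (N := N) hδ c (γ u v) k1
      (fun t => (hbox _ (hR.2 u v huv t)).1) (fun t => (hbox _ (hR.2 u v huv t)).2.1)
      (fun t => (hbox _ (hR.2 u v huv t)).2.2.1) (fun t => (hbox _ (hR.2 u v huv t)).2.2.2)
    rw [k3] at hg
    rw [k4] at hh
    refine ⟨g, by rw [mem_ofPred_eq]; linarith, h, by rw [mem_ofPred_eq]; linarith, w,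
      fun z hz => ?_⟩
    obtain ⟨t, ht⟩ := hw z hz
    by_cases h5 : ρ / 2 ≤ dist (γ u v t) (p u)
    · by_cases h6 : ρ / 2 ≤ dist (γ u v t) (p v)
      · exact Or.inr (Or.inl ⟨t, h5, h6, ht⟩)
      · refine Or.inr (Or.inr ?_)
        have := dist_triangle (P δ c z) (γ u v t) (p v)
        rw [mem_ofPred_eq]
        linarith
    · refine Or.inl ?_
      have := dist_triangle (P δ c z) (γ u v t) (p u)
      rw [mem_ofPred_eq]
      linarith
  · intro u v w huv hwu hwv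
    rw [Set.disjoint_left]
    rintro g ⟨t, -, -, ht⟩ hg
    have h3 := dist_triangle_left (γ u v t) (p w) (P δ c g)
    have h4 := hρ2 u v w huv hwu hwv t
    rw [mem_ofPred_eq] at hg
    linarith
  · intro u v x y huv hxy hne
    rw [Set.disjoint_left]
    rintro g ⟨t, k1, k2, ht⟩ ⟨t', k1', k2', ht'⟩
    have h3 := dist_triangle_left (γ u v t) (γ x y t') (P δ c g)
    have h4 := hδ1 u v x y huv hxy hne t t' k1 k2 k1' k2'
    linarith

end Pool.Agent.Draw
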