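import Mathlib
import Pool.Agent.Work.MP_392c8e_co_draw.Grid
import Pool.Agent.Work.MP_392c8e_co_draw.Top
import Pool.Agent.Work.MP_392c8e_co_draw.Minor

/-!
# Graphs drawn in the plane have an algebraic dual
-/

namespace Pool.Agent.Draw

/-- A graph drawn in the plane without crossings has an algebraic dual. -/
theorem pl_of_drawing {V : Type} [Fintype V] [DecidableEq V] {G : SimpleGraph V}
    (h : ∃ (p : V → ℝ × ℝ) (γ : V → V → unitInterval → ℝ × ℝ),
        Function.Injective p ∧
        (∀ u v, G.Adj u v →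
          Continuous (γ u v) ∧ Function.Injective (γ u v) ∧
          γ u v 0 = p u ∧ γ u v 1 = p v ∧
          ∀ (t : unitInterval) (w : V), γ u v t = p w → w = u ∨ w = v) ∧
        (∀ u v x y, G.Adj u v → G.Adj x y → s(u, v) ≠ s(x, y) →
          ∀ (a b : unitInterval), γ u v a = γ x y b →
            (γ u v a = p u ∨ γ u v a = p v) ∧ (γ u v a = p x ∨ γ u v a = p y))) :
    Pool.Agent.Red.Pl G := by
  obtain ⟨p, γ, hp, h1, h2⟩ := h
  obtain ⟨N, B, A, hBB, hBne, hBc, hW, hAB, hAA⟩ := exists_grid p γ hp h1 h2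
  exact pl_of_minor (pl_grid N) B A hBB hBne hBc hW hAB hAA

end Pool.Agent.Draw
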